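import Mathlib
import Pool.Agent.Helpers.WmpDefs
import Pool.Agent.Helpers.WmpMain

set_option autoImplicit false

namespace Pool.Agent.Results.MP_479f73_an.UniversalDomainFiniteDim

open Pool.Agent.Wmp
open scoped ENNReal

/-- If `(E, F)` has the weak maximizing property for every Banach space `F`, then `E` is finite
dimensional; in fact the single range space `F = ℓ_∞` suffices. -/
theorem result (𝕜 : Type) [RCLike 𝕜] (E : Type*) [NormedAddCommGroup E] [NormedSpace 𝕜 E]
    [CompleteSpace E] :
    ((∀ (F : Type) [NormedAddCommGroup F] [NormedSpace 𝕜 F] [CompleteSpace F], WMP 𝕜 E F) →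
      FiniteDimensional 𝕜 E) ∧
    (WMP 𝕜 E (lp (fun _ : ℕ => 𝕜) ∞) → FiniteDimensional 𝕜 E) :=
  ⟨fun h => main (h (lp (fun _ : ℕ => 𝕜) ∞)), fun h => main h⟩

end Pool.Agent.Results.MP_479f73_an.UniversalDomainFiniteDim
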